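import Pool.Agent.Helper11_PGL.StmtK

/-!
# Module KINEQ of squad PGL
-/

set_option autoImplicit false

open scoped TensorProduct
open PGH

universe u

namespace PGL.H60

theorem kineq (hred : KRedStmt.{u}) (hcopS : CopStmt.{u}) (hsetup : SetupStmt.{u})
    (hmat : MatStmt.{u}) : KIneqStmt.{u} := by
  intro k E R _ _ _ _ _ _ _ _ _ n N f b Q lam p y D del cp sc hf hb hQi hQ hDk hDc hDge hcp hdel
    hcop hlin hy
  classical
  obtain ⟨l, g, a, lam', p', c, hg, hc, hex, hcard, hQ', hlin', hcop', hGe⟩ :=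
    hred k E R n N f b Q lam p y del hf hb hQ hy hcop
  have hp' : ∀ i, p' i ≠ 0 := by
    intro i hi
    apply hlin i
    rw [← hlin' i, hi]
    simp [lin]
  have hcop2 := hcopS k E R l g c D del hDk hDc hdel hcop'
  obtain ⟨X, hXp, hker⟩ := hsetup k R l N g a Q lam' p' hg hex hQi hQ' hp'
  have hc0 : ∀ s, c s ≠ 0 := fun s => hc.ne_zero s
  have hcne : c ≠ 0 := fun h => hc0 0 (by rw [h]; rfl)
  obtain ⟨ρ, hρ, hbound⟩ := hmat k E l N (Multiset.card a) X c D hDk hcne
    (hker E c (fun s => D (c s)) hc hcop2)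
  have hne' : (Finset.univ : Finset (Fin (l + 1))).Nonempty := Finset.univ_nonempty
  let α : Place k E → ℤ := fun v => Finset.univ.inf' hne' (fun s => v.ord (c s))
  have hα1 : ∀ (v : Place k E) s, α v ≤ v.ord (c s) := fun v s =>
    Finset.inf'_le (fun s => v.ord (c s)) (Finset.mem_univ s)
  have hα2 : ∀ v : Place k E, ∃ s, α v = v.ord (c s) := by
    intro v
    obtain ⟨s, -, hs⟩ := Finset.exists_mem_eq_inf' hne' (fun s => v.ord (c s))
    exact ⟨s, hs⟩
  have hαGe : ∀ (v : Place k E) s, v.Ge (α v) (c s) := fun v s =>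
    (Place.ge_iff v (hc0 s)).2 (hα1 v s)
  have hαN : ∀ v : Place k E, ∃ s, ¬ v.Ge (α v + 1) (c s) := by
    intro v
    obtain ⟨s, hs⟩ := hα2 v
    refine ⟨s, ?_⟩
    rw [Place.ge_iff v (hc0 s), hs]
    omega
  have hfin : ∀ s : Fin (l + 1), ({P : Place k E | P.ord (c s) ≠ 0}).Finite :=
    fun s => finite_support (c s)
  let S : Finset (Place k E) := (Finset.univ.biUnion fun s => (hfin s).toFinset) ∪
    (finite_support (L := k) ρ).toFinset
  have hS1 : ∀ P ∉ S, ∀ s, P.ord (c s) = 0 := by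
    intro P hP s
    by_contra hcon
    apply hP
    simp only [S, Finset.mem_union, Finset.mem_biUnion, Finset.mem_univ, true_and,
      Set.Finite.mem_toFinset]
    exact Or.inl ⟨s, hcon⟩
  have hS2 : ∀ P ∉ S, P.ord ρ = 0 := by
    intro P hP
    by_contra hcon
    apply hP
    simp only [S, Finset.mem_union, Set.Finite.mem_toFinset]
    exact Or.inr hcon
  refine ⟨α, S, fun v => (hGe v (α v)).2 (hαGe v), ?_, ?_, ?_⟩
  · intro v
    by_contra hcon
    push Not at hcon
    obtain ⟨s, hs⟩ := hαN v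
    exact hs ((hGe v (α v + 1)).1 hcon s)
  · intro v hv
    obtain ⟨s, hs⟩ := hα2 v
    rw [hs, hS1 v hv s]
  · intro s hs hsc
    have h1 : ∀ v ∈ s, 2 * (Multiset.card a : ℤ) * α v - (Multiset.card a : ℤ) * (cp v : ℤ) +
        ∑ i, max 0 (v.ord (lin (p i) y) - α v - 1) ≤ v.ord ρ := by
      intro v _
      have h2 := hbound v (α v) (cp v : ℤ) (hαGe v) (hαN v) (hDge v)
      rw [hXp] at h2
      simpa only [hlin'] using h2
    have h3 := Finset.sum_le_sum h1
    rw [sum_ord_eq_zero (L := k) ρ s (fun P hP => hS2 P (fun h => hP (hs h)))] at h3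
    rw [Finset.sum_add_distrib, Finset.sum_sub_distrib, ← Finset.mul_sum, ← Finset.mul_sum] at h3
    have h4 : ∑ v ∈ s, (cp v : ℤ) = ∑ v ∈ sc, (cp v : ℤ) := by
      symm
      apply Finset.sum_subset hsc
      intro v _ hv
      rw [hcp v hv]; rfl
    rw [h4] at h3
    have h5 : ∑ v ∈ s, α v ≤ 0 := by
      calc ∑ v ∈ s, α v ≤ ∑ v ∈ s, v.ord (c 0) := Finset.sum_le_sum fun v _ => hα1 v 0
        _ = 0 := sum_ord_eq_zero (L := k) (c 0) s (fun P hP => hS1 P (fun h => hP (hs h)) 0)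
    have h6 : (0 : ℤ) ≤ ∑ v ∈ sc, (cp v : ℤ) := Finset.sum_nonneg fun v _ => by positivity
    have h7 : (Multiset.card a : ℤ) ≤ Multiset.card b := by exact_mod_cast hcard
    have h8 : (0 : ℤ) ≤ -∑ v ∈ s, α v := by linarith
    nlinarith [mul_le_mul_of_nonneg_right h7 h8, mul_le_mul_of_nonneg_right h7 h6]

end PGL.H60
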