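import Pool.Agent.Helper11_PGL.StmtK
import Pool.Agent.Helper1_PGH.Below

/-!
# Module MAT of squad PGL
-/

set_option autoImplicit false

open scoped TensorProduct
open PGH

universe u

namespace PGL.H60

section
variable {k E : Type*} [Field k] [Field E] [Algebra k E]

theorem mulMat_apply {l a b : ℕ} (M : Fin (l + 1) → Matrix (Fin a) (Fin b) k)
    (y : Fin (l + 1) → E) (i : Fin a) (j : Fin b) :
    mulMat M y i j = ∑ s, y s * algebraMap k E (M s i j) := by
  simp [mulMat, Matrix.sum_apply]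

theorem mulMat_mul {l a b c : ℕ} (M : Fin (l + 1) → Matrix (Fin a) (Fin b) k)
    (M' : Fin (l + 1) → Matrix (Fin b) (Fin c) k) (y z : Fin (l + 1) → E) :
    mulMat M y * mulMat M' z = ∑ s, ∑ t, (y s * z t) • ((M s * M' t).map (algebraMap k E)) := by
  unfold mulMat
  rw [Matrix.sum_mul]
  refine Finset.sum_congr rfl fun s _ => ?_
  rw [Matrix.mul_sum]
  refine Finset.sum_congr rfl fun t _ => ?_
  rw [Matrix.map_mul, Matrix.smul_mul, Matrix.mul_smul, smul_smul]

theorem mulMat_comm {l a b c : ℕ} (M : Fin (l + 1) → Matrix (Fin a) (Fin b) k)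
    (M' : Fin (l + 1) → Matrix (Fin b) (Fin c) k) (y z : Fin (l + 1) → E)
    (h : ∀ s t, M s * M' t = M t * M' s) :
    mulMat M y * mulMat M' z = mulMat M z * mulMat M' y := by
  rw [mulMat_mul, mulMat_mul, Finset.sum_comm]
  refine Finset.sum_congr rfl fun s _ => Finset.sum_congr rfl fun t _ => ?_
  rw [h t s, mul_comm]

theorem vecMul_mulMat {l a b : ℕ} (M : Fin (l + 1) → Matrix (Fin a) (Fin b) k)
    (y : Fin (l + 1) → E) (e : Fin a → k) (e' : Fin b → k) (p : Fin (l + 1) → k)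
    (h : ∀ s, Matrix.vecMul e (M s) = p s • e') :
    Matrix.vecMul (fun r => algebraMap k E (e r)) (mulMat M y) =
      fun j => lin p y * algebraMap k E (e' j) := by
  funext j
  have h1 : ∀ s, ∑ r, e r * M s r j = p s * e' j := by
    intro s
    have h2 := congrFun (h s) j
    simpa [Matrix.vecMul, dotProduct] using h2
  simp only [Matrix.vecMul, dotProduct, mulMat_apply, lin, Finset.mul_sum, Finset.sum_mul]
  rw [Finset.sum_comm]
  refine Finset.sum_congr rfl fun s _ => ?_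
  calc ∑ r, algebraMap k E (e r) * (y s * algebraMap k E (M s r j))
      = y s * algebraMap k E (∑ r, e r * M s r j) := by
        rw [map_sum, Finset.mul_sum]
        refine Finset.sum_congr rfl fun r _ => ?_
        rw [map_mul]; ring
    _ = _ := by rw [h1 s, map_mul]; ring

theorem lin_deriv {l : ℕ} (p : Fin (l + 1) → k) (y : Fin (l + 1) → E) (D : Derivation ℤ E E)
    (hD : ∀ c : k, D (algebraMap k E c) = 0) : lin p (fun s => D (y s)) = D (lin p y) := by
  unfold lin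
  rw [map_sum]
  refine Finset.sum_congr rfl fun s _ => ?_
  rw [Derivation.leibniz, hD]
  simp

theorem lin_mul {l : ℕ} (p : Fin (l + 1) → k) (y : Fin (l + 1) → E) (x : E) :
    lin p (fun s => x * y s) = x * lin p y := by
  unfold lin
  rw [Finset.mul_sum]
  refine Finset.sum_congr rfl fun s _ => ?_
  ring

/-- a matrix with a nonzero maximal minor is injective -/
theorem inj_of_minDet {H δ : ℕ} (P : Matrix (Fin (H + δ)) (Fin H) E)
    (σ : Fin H ⊕ Fin δ ≃ Fin (H + δ)) (h : minDet P σ ≠ 0) : Function.Injective P.mulVec := by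
  intro x x' hx
  set T : Matrix (Fin H) (Fin H) E := Matrix.of (fun (i j : Fin H) => P (σ (Sum.inl i)) j) with hT
  have hdet : T.det ≠ 0 := h
  have h1 : T.mulVec x = T.mulVec x' := by
    funext i
    exact congrFun hx (σ (Sum.inl i))
  have h2 : Function.Injective T.mulVec := by
    apply Matrix.mulVec_injective_of_isUnit
    rw [Matrix.isUnit_iff_isUnit_det]
    exact isUnit_iff_ne_zero.2 hdet
  exact h2 h1

end

section
variable {k E : Type u} [Field k] [IsAlgClosed k] [CharZero k] [Field E] [Algebra k E] [FF k E]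

/-- the local normalisation -/
theorem exists_good (hunit : UnitStmt.{u}) {l N δ : ℕ} (X : MulData k l N δ)
    (y : Fin (l + 1) → E) (v : Place k E) (a : ℤ) (h1 : ∀ s, v.Ge a (y s))
    (h2 : ∃ s, ¬ v.Ge (a + 1) (y s)) :
    ∃ x : E, x ≠ 0 ∧ v.ord x = -a ∧ (∀ s, v.Ge 0 (x * y s)) ∧
      ∃ σ : Fin X.H ⊕ Fin δ ≃ Fin (X.H + δ), minDet (mulMat X.M0 (fun s => x * y s)) σ ≠ 0 ∧
        v.ord (minDet (mulMat X.M0 (fun s => x * y s)) σ) = 0 := by
  obtain ⟨u, hu0, hu⟩ := v.exists_unif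
  have hx0 : u ^ (-a) ≠ 0 := zpow_ne_zero _ hu0
  have hxo : v.ord (u ^ (-a)) = -a := by rw [Place.ord_zpow, hu, mul_one]
  have hxge : v.Ge (-a) (u ^ (-a)) := (Place.ge_iff v hx0).2 (by rw [hxo])
  have h3 : ∀ s, v.Ge 0 (u ^ (-a) * y s) := fun s => hxge.mul' (h1 s) (by omega)
  refine ⟨u ^ (-a), hx0, hxo, h3, ?_⟩
  choose c hc using fun s => v.exists_res (h3 s)
  have hcne : c ≠ 0 := by
    intro h0
    obtain ⟨s, hs⟩ := h2
    apply hs
    have h4 := hc s
    rw [h0, Pi.zero_apply, map_zero, sub_zero] at h4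
    have h5 : v.Ge a (u ^ a) := (Place.ge_iff v (zpow_ne_zero _ hu0)).2 (by
      rw [Place.ord_zpow, hu, mul_one])
    have h6 := h5.mul' h4 (show a + 1 ≤ a + 1 from le_refl _)
    rwa [← mul_assoc, ← zpow_add₀ hu0, add_neg_cancel, zpow_zero, one_mul] at h6
  apply hunit k E v X.H δ (mulMat X.M0 (fun s => u ^ (-a) * y s)) (∑ s, c s • X.M0 s) _
    (X.inj c hcne)
  intro i j
  have h4 : mulMat X.M0 (fun s => u ^ (-a) * y s) i j -
      algebraMap k E ((∑ s, c s • X.M0 s) i j) =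
      ∑ s, X.M0 s i j • (u ^ (-a) * y s - algebraMap k E (c s)) := by
    rw [mulMat_apply, Matrix.sum_apply, map_sum, ← Finset.sum_sub_distrib]
    refine Finset.sum_congr rfl fun s _ => ?_
    rw [Matrix.smul_apply, smul_eq_mul, map_mul, Algebra.smul_def]
    ring
  rw [h4]
  apply Place.Ge.sum
  intro s _
  exact (hc s).smul _

end

theorem mat (hdetl : DetlStmt.{u}) (hmatr : MatRStmt.{u}) (hmatl : MatLStmt.{u})
    (hmath : MatHStmt.{u}) (hunit : UnitStmt.{u}) : MatStmt.{u} := by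
  intro k E _ _ _ _ _ _ l N δ X y D hD hy hker
  classical
  set A := mulMat X.M1 y with hA
  set B := mulMat X.M1 (fun s => D (y s)) with hB
  set P := mulMat X.M0 y with hP
  set Q := mulMat X.M0 (fun s => D (y s)) with hQ
  have hAQ : A * Q = B * P := mulMat_comm _ _ _ _ X.comm
  -- the linear forms do not vanish
  have hlin : ∀ i, lin (X.p i) y ≠ 0 := by
    intro i h0
    have h1 := vecMul_mulMat X.M1 y (X.e i) (X.e' i) (X.p i) (X.rel i)
    have h2 := vecMul_mulMat X.M1 (fun s => D (y s)) (X.e i) (X.e' i) (X.p i) (X.rel i)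
    rw [lin_deriv _ _ D hD, h0, map_zero] at h2
    rw [h0] at h1
    have h3 := hker _ (by rw [← hA] at h1; rw [h1]; funext j; simp)
      (by rw [← hB] at h2; rw [h2]; funext j; simp)
    apply X.indep.ne_zero i
    funext r
    have h4 := congrFun h3 r
    simp only [Pi.zero_apply] at h4 ⊢
    exact (map_eq_zero_iff _ (algebraMap k E).injective).1 h4
  -- minimal order
  have hmin : ∀ v : Place k E, ∃ a : ℤ, (∀ s, v.Ge a (y s)) ∧ ∃ s, ¬ v.Ge (a + 1) (y s) := by
    intro v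
    obtain ⟨s₀, hs₀⟩ := Function.ne_iff.1 hy
    have hs₀ : y s₀ ≠ 0 := hs₀
    obtain ⟨s₁, hs₁, hmin⟩ := Finset.exists_min_image (Finset.univ.filter fun s => y s ≠ 0)
      (fun s => v.ord (y s)) ⟨s₀, by simp [hs₀]⟩
    have hs₁' : y s₁ ≠ 0 := (Finset.mem_filter.1 hs₁).2
    refine ⟨v.ord (y s₁), fun s => ?_, s₁, ?_⟩
    · by_cases h : y s = 0
      · rw [h]; exact v.ge_zero _
      · rw [Place.ge_iff v h]
        exact hmin s (by simp [h])
    · rw [Place.ge_iff v hs₁']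
      omega
  obtain ⟨v₀⟩ : Nonempty (Place k E) := exists_place k E
  obtain ⟨a₀, ha₀, ha₀'⟩ := hmin v₀
  obtain ⟨x₀, hx₀, -, -, σ₁, hσ₁, -⟩ := exists_good hunit X y v₀ a₀ ha₀ ha₀'
  have hσ₁' : minDet P σ₁ ≠ 0 := by
    have h1 := (hmath k E l N δ X y D x₀ σ₁).2
    rw [h1] at hσ₁
    exact right_ne_zero_of_mul hσ₁
  have hPinj : Function.Injective P.mulVec := inj_of_minDet P σ₁ hσ₁'
  obtain ⟨σ₀, hσ₀⟩ := hmatr E X.H δ A B P Q hAQ hPinj hker
  have hσ₀' : minDet P σ₀ ≠ 0 := by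
    intro h0
    rcases hdetl E X.H δ A B P Q hAQ σ₀ σ₁ with h | h
    · rw [h0, mul_zero] at h
      exact mul_ne_zero hσ₀ hσ₁' h
    · rw [h0, mul_zero, neg_zero] at h
      exact mul_ne_zero hσ₀ hσ₁' h
  refine ⟨bigDet A B σ₀ / minDet P σ₀, div_ne_zero hσ₀ hσ₀', ?_⟩
  intro v a c h1 h2 hDge
  obtain ⟨x, hx0, hxo, hx1, σ, hσ, hσo⟩ := exists_good hunit X y v a h1 h2
  obtain ⟨hm1, hm2⟩ := hmath k E l N δ X y D x σ
  rw [hm2] at hσ hσo
  have hσP : minDet P σ ≠ 0 := right_ne_zero_of_mul hσ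
  rw [Place.ord_mul v (pow_ne_zero _ hx0) hσP, Place.ord_pow, hxo] at hσo
  have hbig0 : bigDet A B σ ≠ 0 := by
    intro h0
    rcases hdetl E X.H δ A B P Q hAQ σ₀ σ with h | h
    · rw [h0, zero_mul] at h
      exact mul_ne_zero hσ₀ hσP h
    · rw [h0, zero_mul, neg_zero] at h
      exact mul_ne_zero hσ₀ hσP h
  have hbig : v.ord (bigDet A B σ₀) + v.ord (minDet P σ) =
      v.ord (bigDet A B σ) + v.ord (minDet P σ₀) := by
    rw [← Place.ord_mul v hσ₀ hσP, ← Place.ord_mul v hbig0 hσ₀']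
    rcases hdetl E X.H δ A B P Q hAQ σ₀ σ with h | h
    · rw [h]
    · rw [h, Place.ord_neg]
  have hl := hmatl k E l N δ X (fun s => x * y s) D v c σ hD hx1 hDge (by
    intro i
    rw [lin_mul]
    exact mul_ne_zero hx0 (hlin i))
  rw [hm1, Place.ge_iff v (mul_ne_zero (pow_ne_zero _ hx0) hbig0),
    Place.ord_mul v (pow_ne_zero _ hx0) hbig0, Place.ord_pow, hxo] at hl
  have hsum : ∑ i, max 0 (v.ord (lin (X.p i) (fun s => x * y s)) - 1) =
      ∑ i, max 0 (v.ord (lin (X.p i) y) - a - 1) := by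
    refine Finset.sum_congr rfl fun i _ => ?_
    rw [lin_mul, Place.ord_mul v hx0 (hlin i), hxo]
    congr 1
    ring
  rw [hsum] at hl
  rw [Place.ord_div v hσ₀ hσ₀']
  push_cast at hl
  nlinarith [hl, hbig, hσo]

end PGL.H60
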