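import Pool.Agent.Helper11_PGL.StmtK

/-!
# Module KRED of squad PGL
-/

set_option autoImplicit false

open scoped TensorProduct
open PGH

universe u

namespace PGL.H60

section
variable {k E R : Type*} [Field k] [Field E] [Field R] [Algebra k E] [Algebra k R]

theorem yT_change {n l : ℕ} (τ : Fin (n + 1) → Fin (l + 1) → k) (y : Fin (n + 1) → E)
    (c : Fin (l + 1) → E) (f : Fin (n + 1) → R) (h : ∀ j, y j = ∑ s, τ j s • c s) :
    yT k y f = yT k c (fun s => ∑ j, τ j s • f j) := by
  unfold yT
  simp only [h, TensorProduct.sum_tmul, TensorProduct.tmul_sum]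
  rw [Finset.sum_comm]
  refine Finset.sum_congr rfl fun s _ => Finset.sum_congr rfl fun j _ => ?_
  rw [TensorProduct.smul_tmul]

theorem yT_mul {l : ℕ} (c : Fin (l + 1) → E) (g : Fin (l + 1) → R) (w : R) :
    yT k c (fun s => g s * w) = yT k c g * (1 ⊗ₜ[k] w) := by
  unfold yT
  rw [Finset.sum_mul]
  refine Finset.sum_congr rfl fun s _ => ?_
  rw [Algebra.TensorProduct.tmul_mul_tmul, mul_one]

theorem yT_add {l : ℕ} (c : Fin (l + 1) → E) (g g' : Fin (l + 1) → R) :
    yT k c (fun s => g s + g' s) = yT k c g + yT k c g' := by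
  unfold yT
  rw [← Finset.sum_add_distrib]
  refine Finset.sum_congr rfl fun s _ => ?_
  rw [TensorProduct.tmul_add]

/-- scaling does not change coprimality -/
theorem coprime_scale {l : ℕ} (c : Fin (l + 1) → E) (g : Fin (l + 1) → R)
    (del : Derivation k R R) (w : R) (hw : w ≠ 0)
    (h : IsCoprime (yT k c g) (yT k c (fun s => del (g s)))) :
    IsCoprime (yT k c (fun s => g s * w)) (yT k c (fun s => del (g s * w))) := by
  have h1 : yT k c (fun s => del (g s * w)) =
      yT k c (fun s => del (g s)) * (1 ⊗ₜ[k] w) + yT k c (fun s => g s) * (1 ⊗ₜ[k] del w) := by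
    rw [← yT_mul, ← yT_mul, ← yT_add]
    congr 1
    funext s
    rw [Derivation.leibniz]
    simp only [smul_eq_mul]
    ring
  have hu : IsUnit ((1 : E) ⊗ₜ[k] w) := by
    apply IsUnit.of_mul_eq_one ((1 : E) ⊗ₜ[k] w⁻¹)
    rw [Algebra.TensorProduct.tmul_mul_tmul, mul_one, mul_inv_cancel₀ hw]
    rfl
  have h2 : (1 : E) ⊗ₜ[k] (del w) = (1 ⊗ₜ[k] w) * (1 ⊗ₜ[k] (w⁻¹ * del w)) := by
    rw [Algebra.TensorProduct.tmul_mul_tmul, mul_one, mul_inv_cancel_left₀ hw]
  rw [h1, yT_mul, h2, ← mul_assoc]
  have h3 : IsCoprime (yT k c g * ((1 : E) ⊗ₜ[k] w)) (yT k c (fun s => del (g s)) * (1 ⊗ₜ[k] w)) :=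
    (isCoprime_mul_unit_right_left hu _ _).2 ((isCoprime_mul_unit_right_right hu _ _).2 h)
  exact h3.add_mul_left_right _

end

theorem kred : KRedStmt.{u} := by
  intro k E R _ _ _ _ _ _ _ _ _ n N f b Q lam p y del hf hb hQ hy hcop
  classical
  obtain ⟨κ, a, ha, hspan, hli⟩ := exists_linearIndependent' k y
  haveI : Finite κ := Finite.of_injective a ha
  haveI : Fintype κ := Fintype.ofFinite κ
  have hne : Nonempty κ := by
    by_contra hcon
    rw [not_nonempty_iff] at hcon
    apply hy
    have h1 : Set.range (y ∘ a) = ∅ := Set.range_eq_empty _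
    rw [h1, Submodule.span_empty] at hspan
    funext j
    have : y j ∈ Submodule.span k (Set.range y) := Submodule.subset_span ⟨j, rfl⟩
    rw [← hspan] at this
    simpa using this
  obtain ⟨l, hl⟩ : ∃ l, Fintype.card κ = l + 1 :=
    ⟨Fintype.card κ - 1, by have := Fintype.card_pos (α := κ); omega⟩
  let ε : Fin (l + 1) ≃ κ := (Fintype.equivFinOfCardEq hl).symm
  let A : Fin (l + 1) → Fin (n + 1) := fun s => a (ε s)
  let c : Fin (l + 1) → E := fun s => y (A s)
  have hc : LinearIndependent k c := hli.comp ε ε.injective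
  have hexp : ∀ j, ∃ t : Fin (l + 1) → k, y j = ∑ s, t s • c s := by
    intro j
    have h1 : y j ∈ Submodule.span k (Set.range y) := Submodule.subset_span ⟨j, rfl⟩
    rw [← hspan] at h1
    have h2 : Set.range (y ∘ a) = Set.range c := by
      ext x
      constructor
      · rintro ⟨i, rfl⟩
        exact ⟨ε.symm i, by simp [c, A]⟩
      · rintro ⟨s, rfl⟩
        exact ⟨ε s, rfl⟩
    rw [h2, Submodule.mem_span_range_iff_exists_fun] at h1
    obtain ⟨t, ht⟩ := h1
    exact ⟨t, ht.symm⟩
  choose τ hτ using hexp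
  have hτA : ∀ s s', τ (A s') s = if s = s' then 1 else 0 := by
    intro s s'
    have h1 : ∑ r, (τ (A s') r - if r = s' then 1 else 0) • c r = 0 := by
      simp only [sub_smul, Finset.sum_sub_distrib]
      rw [← hτ (A s')]
      simp [c, ite_smul]
    have h2 := Fintype.linearIndependent_iff.1 hc _ h1 s
    exact sub_eq_zero.1 h2
  let g' : Fin (l + 1) → R := fun s => ∑ j, τ j s • f j
  have hg' : LinearIndependent k g' := by
    rw [Fintype.linearIndependent_iff]
    intro d hd s'
    have h1 : ∑ j, (∑ s, d s * τ j s) • f j = 0 := by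
      rw [← hd]
      simp only [g', Finset.smul_sum, Finset.sum_smul, smul_smul]
      rw [Finset.sum_comm]
    have h2 := Fintype.linearIndependent_iff.1 hf _ h1 (A s')
    simpa [hτA] using h2
  have hg0 : ∀ s, g' s ≠ 0 := fun s => hg'.ne_zero s
  have hcop' : IsCoprime (yT k c g') (yT k c (fun s => del (g' s))) := by
    rw [yT_change τ y c f hτ, yT_change τ y c _ hτ] at hcop
    have h1 : (fun s => del (g' s)) = fun s => ∑ j, τ j s • del (f j) := by
      funext s
      simp [g', map_sum, Derivation.map_smul]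
    rw [h1]
    exact hcop
  set w : R := (g' 0)⁻¹ with hw
  have hw0 : w ≠ 0 := inv_ne_zero (hg0 0)
  let g : Fin (l + 1) → R := fun s => g' s * w
  have hgne : ∀ s, g s ≠ 0 := fun s => mul_ne_zero (hg0 s) hw0
  have hgzero : g 0 = 1 := mul_inv_cancel₀ (hg0 0)
  -- pole orders
  have hne' : (Finset.univ : Finset (Fin (l + 1))).Nonempty := Finset.univ_nonempty
  let G : Place k R → ℤ := fun P => Finset.univ.sup' hne' (fun s => - P.ord (g s))
  have hG0 : ∀ P, 0 ≤ G P := by
    intro P
    have h1 := Finset.le_sup' (fun s => - P.ord (g s)) (Finset.mem_univ (0 : Fin (l + 1)))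
    simp only [hgzero, Place.ord_one, neg_zero] at h1
    exact h1
  have hfin : ∀ s : Fin (l + 1), ({P : Place k R | P.ord (g s) ≠ 0}).Finite :=
    fun s => finite_support (g s)
  let S : Finset (Place k R) := (Finset.univ.biUnion fun s => (hfin s).toFinset) ∪
    (finite_support (L := k) (g' 0)).toFinset
  have hS1 : ∀ P ∉ S, ∀ s, P.ord (g s) = 0 := by
    intro P hP s
    by_contra hcon
    apply hP
    simp only [S, Finset.mem_union, Finset.mem_biUnion, Finset.mem_univ, true_and,
      Set.Finite.mem_toFinset, Set.mem_setOf_eq]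
    exact Or.inl ⟨s, hcon⟩
  have hS2 : ∀ P ∉ S, P.ord (g' 0) = 0 := by
    intro P hP
    by_contra hcon
    apply hP
    simp only [S, Finset.mem_union, Set.Finite.mem_toFinset, Set.mem_setOf_eq]
    exact Or.inr hcon
  have hGS : ∀ P ∉ S, G P = 0 := by
    intro P hP
    apply le_antisymm _ (hG0 P)
    apply Finset.sup'_le
    intro s _
    rw [hS1 P hP s]; simp
  obtain ⟨m, hm1, hm2⟩ := exists_multiset G S hG0 hGS
  refine ⟨l, g, m, fun i => lam i * g' 0, fun i s => ∑ j, τ j s * p i j, c, ?_, hc, ⟨?_, ?_⟩,
    ?_, ?_, ?_, coprime_scale c g' del w hw0 hcop', ?_⟩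
  · rw [Fintype.linearIndependent_iff] at hg' ⊢
    intro d hd
    apply hg' d
    have h1 : (∑ s, d s • g' s) * w = 0 := by
      rw [← hd, Finset.sum_mul]
      refine Finset.sum_congr rfl fun s _ => ?_
      simp only [g, Algebra.smul_def, mul_assoc]
    exact (mul_eq_zero.1 h1).resolve_right hw0
  · intro P s
    rw [Place.ge_iff _ (hgne s), hm1]
    have h1 := Finset.le_sup' (fun s => - P.ord (g s)) (Finset.mem_univ s)
    change -G P ≤ _
    have h2 : - P.ord (g s) ≤ G P := h1
    omega
  · intro P
    obtain ⟨s, -, hs⟩ := Finset.exists_mem_eq_sup' hne' (fun s => - P.ord (g s))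
    refine ⟨s, ?_⟩
    rw [Place.ge_iff _ (hgne s), hm1]
    have h2 : G P = - P.ord (g s) := hs
    omega
  · have h1 : ∀ P, G P ≤ (b.count P : ℤ) + P.ord (g' 0) := by
      intro P
      apply Finset.sup'_le
      intro s _
      have h2 : P.Ge (-(b.count P : ℤ)) (g' s) := by
        apply Place.Ge.sum
        intro j _
        exact (hb P j).smul _
      rw [Place.ge_iff _ (hg0 s)] at h2
      simp only [g]
      rw [Place.ord_mul _ (hg0 s) hw0, hw, Place.ord_inv]
      omega
    have h3 : (Multiset.card m : ℤ) ≤ Multiset.card b := by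
      rw [hm2]
      calc ∑ P ∈ S, G P ≤ ∑ P ∈ S, ((b.count P : ℤ) + P.ord (g' 0)) :=
            Finset.sum_le_sum fun P _ => h1 P
        _ = ∑ P ∈ S, (b.count P : ℤ) := by
            rw [Finset.sum_add_distrib, sum_ord_eq_zero (L := k) (g' 0) S hS2, add_zero]
        _ ≤ (Multiset.card b : ℤ) := by
            have h4 : ∑ P ∈ S, b.count P ≤ Multiset.card b := by
              have h5 := Multiset.toFinset_sum_count_eq b
              calc ∑ P ∈ S, b.count P ≤ ∑ P ∈ S ∪ b.toFinset, b.count P :=
                    Finset.sum_le_sum_of_subset Finset.subset_union_left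
                _ = ∑ P ∈ b.toFinset, b.count P := by
                    symm
                    apply Finset.sum_subset Finset.subset_union_right
                    intro P _ hP
                    rw [Multiset.mem_toFinset] at hP
                    exact Multiset.count_eq_zero_of_notMem hP
                _ = Multiset.card b := h5
            exact_mod_cast h4
    exact_mod_cast h3
  · intro i s
    have h1 : lam i * g' 0 * g s - algebraMap k R (∑ j, τ j s * p i j) =
        ∑ j, τ j s • (lam i * f j - algebraMap k R (p i j)) := by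
      have h2 : g' 0 * g s = g' s := by
        simp only [g, hw]
        rw [mul_comm (g' s), mul_inv_cancel_left₀ (hg0 0)]
      rw [mul_assoc, h2]
      simp only [g']
      rw [Finset.mul_sum, map_sum, ← Finset.sum_sub_distrib]
      refine Finset.sum_congr rfl fun j _ => ?_
      rw [smul_sub, mul_smul_comm, map_mul, Algebra.smul_def (τ j s) (algebraMap k R (p i j))]
    rw [h1]
    apply Place.Ge.sum
    intro j _
    exact (hQ i j).smul _
  · intro i
    unfold lin
    simp only [map_sum, map_mul]
    have h1 : ∀ j, y j = ∑ s, algebraMap k E (τ j s) * c s := by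
      intro j
      rw [hτ j]
      refine Finset.sum_congr rfl fun s _ => ?_
      rw [Algebra.smul_def]
    conv_rhs => rw [Finset.sum_congr rfl fun j _ => by rw [h1 j]]
    simp only [Finset.mul_sum, Finset.sum_mul]
    rw [Finset.sum_comm]
    refine Finset.sum_congr rfl fun s _ => Finset.sum_congr rfl fun j _ => ?_
    ring
  · intro v α
    constructor
    · intro h s
      exact h (A s)
    · intro h j
      rw [hτ j]
      apply Place.Ge.sum
      intro s _
      exact (h s).smul _

end PGL.H60
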